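import Pool.Agent.X79.EQP.Stm

/-!
# Part SW (helper7): Stone-Weierstrass for functions of two groups of bounded functions
-/

set_option autoImplicit false

namespace Pool.Agent.X7.EQP

open Filter MeasureTheory Set Topology Pool.Agent.X79.EQP

theorem t_SW : S_SW := by
  intro X₁ X₂ G k₁ k₂ g₁ g₂ M hg₁ hg₂ hadd hsmul hunif hprod Φ hΦ
  have hM0 : (0 : ℝ) ≤ max M 0 := le_max_right _ _
  let B : Set ((Fin k₁ → ℝ) × (Fin k₂ → ℝ)) := Metric.closedBall 0 (max M 0)
  have hB : IsCompact B := isCompact_closedBall _ _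
  have : CompactSpace B := isCompact_iff_compactSpace.1 hB
  let pt : X₁ × X₂ → (Fin k₁ → ℝ) × (Fin k₂ → ℝ) :=
    fun x => (fun i => g₁ i x.1, fun i => g₂ i x.2)
  have hmem : ∀ x, pt x ∈ B := by
    intro x
    rw [Metric.mem_closedBall, dist_zero_right, Prod.norm_def, max_le_iff,
      pi_norm_le_iff_of_nonneg hM0, pi_norm_le_iff_of_nonneg hM0]
    exact ⟨fun i => (hg₁ i x.1).trans (le_max_left _ _),
      fun i => (hg₂ i x.2).trans (le_max_left _ _)⟩
  let GG : X₁ × X₂ → B := fun x => ⟨pt x, hmem x⟩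
  let co₁ : Fin k₁ → C(B, ℝ) := fun i =>
    ⟨fun y => y.1.1 i, (continuous_apply i).comp (continuous_fst.comp continuous_subtype_val)⟩
  let co₂ : Fin k₂ → C(B, ℝ) := fun i =>
    ⟨fun y => y.1.2 i, (continuous_apply i).comp (continuous_snd.comp continuous_subtype_val)⟩
  let S : Subalgebra ℝ C(B, ℝ) := Algebra.adjoin ℝ (Set.range co₁ ∪ Set.range co₂)
  have hS : S.SeparatesPoints := by
    intro y y' hyy
    have : (∃ i, y.1.1 i ≠ y'.1.1 i) ∨ (∃ i, y.1.2 i ≠ y'.1.2 i) := by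
      by_contra hc
      push Not at hc
      exact hyy (Subtype.ext (Prod.ext (funext hc.1) (funext hc.2)))
    rcases this with ⟨i, hi⟩ | ⟨i, hi⟩
    · exact ⟨_, ⟨co₁ i, Algebra.subset_adjoin (Or.inl ⟨i, rfl⟩), rfl⟩, hi⟩
    · exact ⟨_, ⟨co₂ i, Algebra.subset_adjoin (Or.inr ⟨i, rfl⟩), rfl⟩, hi⟩
  let P : (X₁ × X₂ → ℝ) → Prop := fun w =>
    ∀ (Φ₁ : (Fin k₁ → ℝ) → ℝ) (Φ₂ : (Fin k₂ → ℝ) → ℝ), Continuous Φ₁ → Continuous Φ₂ →
      G (fun x => w x * (Φ₁ (fun i => g₁ i x.1) * Φ₂ (fun i => g₂ i x.2)))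
  -- all elements of the algebra are multipliers
  have hmul : ∀ q ∈ S, ∀ w : X₁ × X₂ → ℝ, P w → P (fun x => w x * q (GG x)) := by
    intro q hq
    induction hq using Algebra.adjoin_induction with
    | mem q hq =>
      rcases hq with ⟨i, rfl⟩ | ⟨i, rfl⟩
      · intro w hw Φ₁ Φ₂ h₁ h₂
        have := hw (fun y => y i * Φ₁ y) Φ₂ ((continuous_apply i).mul h₁) h₂
        convert this using 2 with x
        show w x * g₁ i x.1 * _ = _
        ring
      · intro w hw Φ₁ Φ₂ h₁ h₂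
        have := hw Φ₁ (fun y => y i * Φ₂ y) h₁ ((continuous_apply i).mul h₂)
        convert this using 2 with x
        show w x * g₂ i x.2 * _ = _
        ring
    | algebraMap r =>
      intro w hw Φ₁ Φ₂ h₁ h₂
      have := hsmul _ (hw Φ₁ Φ₂ h₁ h₂) r
      convert this using 2 with x
      simp only [Algebra.algebraMap_eq_smul_one, ContinuousMap.smul_apply,
        ContinuousMap.one_apply, smul_eq_mul, mul_one]
      ring
    | add q₁ q₂ _ _ h1 h2 =>
      intro w hw Φ₁ Φ₂ h₁ h₂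
      have := hadd _ _ (h1 w hw Φ₁ Φ₂ h₁ h₂) (h2 w hw Φ₁ Φ₂ h₁ h₂)
      convert this using 2 with x
      simp only [ContinuousMap.add_apply]
      ring
    | mul q₁ q₂ _ _ h1 h2 =>
      intro w hw
      have := h2 _ (h1 w hw)
      convert this using 2 with x
      simp only [ContinuousMap.mul_apply]
      ring
  have hone : P (fun _ => 1) := by
    intro Φ₁ Φ₂ h₁ h₂
    have := hprod Φ₁ Φ₂ h₁ h₂
    simpa using this
  have hΦc : Continuous (fun y : B => Φ y.1) := hΦ.comp continuous_subtype_val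
  refine hunif _ ?_ ?_
  · obtain ⟨C, hC⟩ := hB.exists_bound_of_continuousOn hΦ.continuousOn
    exact ⟨C, fun x => hC _ (hmem x)⟩
  · intro ε hε
    obtain ⟨q, hq⟩ := ContinuousMap.exists_mem_subalgebra_near_continuous_of_separatesPoints S hS
      (fun y : B => Φ y.1) hΦc ε hε
    refine ⟨fun x => (q : C(B, ℝ)) (GG x), ?_, fun x => ?_⟩
    · have := hmul q q.2 _ hone (fun _ => 1) (fun _ => 1) continuous_const continuous_const
      simpa using this
    · have h1 := hq (GG x)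
      rw [Real.norm_eq_abs, abs_sub_comm] at h1
      exact h1.le

end Pool.Agent.X7.EQP
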